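import Pool.Agent.J4H12.MX.Stm

set_option autoImplicit false

universe u

namespace Pool.Agent.J4H62.MX

open Pool.Agent.J4H12.MX

theorem relIndex_eq_of_mul {G : Type u} [Group G] {A B H : Subgroup G} (hAB : A ≤ B)
    (h : ∀ b ∈ B, ∃ a ∈ A, ∃ x ∈ H, b = a * x) : H.relIndex B = H.relIndex A := by
  unfold Subgroup.relIndex Subgroup.index
  refine (Nat.card_congr (Equiv.ofBijective (Subgroup.quotientSubgroupOfEmbeddingOfLE H hAB)
    ⟨(Subgroup.quotientSubgroupOfEmbeddingOfLE H hAB).injective, ?_⟩)).symm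
  intro q
  induction q using QuotientGroup.induction_on with
  | H b =>
    obtain ⟨b, hb⟩ := b
    obtain ⟨a, ha, x, hx, rfl⟩ := h b hb
    refine ⟨QuotientGroup.mk ⟨a, ha⟩, ?_⟩
    rw [Subgroup.quotientSubgroupOfEmbeddingOfLE_apply_mk]
    rw [QuotientGroup.eq, Subgroup.mem_subgroupOf]
    simpa using hx

theorem t_LSY : S_LSY.{u} := by
  intro G _ _ _ _ _ p L K R hp hL hK hKn hDv hLK hR
  haveI := hKn
  refine ⟨hR.closed, le_top, hR.prop, ?_⟩
  intro U hU
  haveI := hU.1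
  rw [Subgroup.relIndex_top_right]
  have hle : R ⊔ U ≤ L ⊔ U := sup_le_sup_right hR.le U
  have h1 : (R ⊔ U).relIndex (L ⊔ U) = (R ⊔ U).relIndex L := by
    refine relIndex_eq_of_mul le_sup_left ?_
    intro b hb
    have hb' : b ∈ ((L ⊔ U : Subgroup G) : Set G) := hb
    rw [Subgroup.mul_normal] at hb'
    obtain ⟨l, hl, v, hv, rfl⟩ := hb'
    exact ⟨l, hl, v, Subgroup.mem_sup_right hv, rfl⟩
  have h2 : (L ⊔ U).index = (L ⊔ U).relIndex K := by
    rw [← Subgroup.relIndex_top_right]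
    refine relIndex_eq_of_mul le_top ?_
    intro b _
    have hb' : b ∈ ((K ⊔ L : Subgroup G) : Set G) := by
      rw [sup_comm, hLK]
      trivial
    rw [Subgroup.normal_mul] at hb'
    obtain ⟨k, hk, l, hl, rfl⟩ := hb'
    exact ⟨k, hk, l, Subgroup.mem_sup_left hl, rfl⟩
  rw [← Subgroup.relIndex_mul_index hle, h1, h2]
  intro hdvd
  rcases hp.dvd_mul.1 hdvd with h3 | h3
  · exact hR.idx U hU h3
  · exact hDv ⟨U, hU, h3.trans (Subgroup.relIndex_dvd_of_le_left K le_sup_right)⟩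

end Pool.Agent.J4H62.MX
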