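import Pool.Agent.J4H62.MX.Lsy

set_option autoImplicit false

universe u

namespace Pool.Agent.J4H62.MX

open Pool.Agent.J4H12.MX
open scoped Pointwise

theorem mem_of_all {G : Type u} [Group G] [TopologicalSpace G] [IsTopologicalGroup G]
    [CompactSpace G] [TotallyDisconnectedSpace G] {H : Subgroup G} (hH : IsClosed (H : Set G))
    {x : G} (h : ∀ U : Subgroup G, ON U → x ∈ H ⊔ U) : x ∈ H := by
  by_contra hx
  have h1 : IsOpen ((fun y => x * y⁻¹) ⁻¹' ((H : Set G)ᶜ)) :=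
    hH.isOpen_compl.preimage (by fun_prop)
  obtain ⟨U, hU⟩ := ProfiniteGrp.exist_openNormalSubgroup_sub_open_nhds_of_one h1
    (by simpa using hx)
  haveI : U.toSubgroup.Normal := U.isNormal'
  have h2 := h U.toSubgroup ⟨U.isNormal', U.isOpen'⟩
  obtain ⟨a, ha, b, hb, hab⟩ := Subgroup.mem_sup_of_normal_right.1 h2
  have h3 := hU (show b ∈ (U : Set G) from hb)
  apply h3
  have : x * b⁻¹ = a := by rw [← hab]; group
  show x * b⁻¹ ∈ (H : Set G)
  rw [this]; exact ha

/-- the image of a Sylow subgroup in a finite quotient, as a Sylow subgroup of the image of `K` -/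
theorem exists_sylow {G : Type u} [Group G] [TopologicalSpace G] {p : ℕ} (hp : p.Prime)
    {K P U : Subgroup G} (hP : Syl p K P) (hU : ON U) [U.Normal] :
    ∃ S : Sylow p (K.map (QuotientGroup.mk' U)),
      (S : Subgroup (K.map (QuotientGroup.mk' U))) =
        (P.map (QuotientGroup.mk' U)).subgroupOf (K.map (QuotientGroup.mk' U)) := by
  haveI : Fact p.Prime := ⟨hp⟩
  have h1 : IsPGroup p ((P.map (QuotientGroup.mk' U)).subgroupOf
      (K.map (QuotientGroup.mk' U))) := by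
    rintro ⟨⟨g, hgK⟩, hg⟩
    rw [Subgroup.mem_subgroupOf] at hg
    obtain ⟨x, hx, hxg⟩ := hg
    obtain ⟨k, hk⟩ := hP.prop x hx U hU
    refine ⟨k, ?_⟩
    apply Subtype.ext
    apply Subtype.ext
    simp only [Subgroup.coe_pow, Subgroup.coe_one]
    simp only at hxg
    rw [← hxg, ← map_pow, QuotientGroup.mk'_apply, QuotientGroup.eq_one_iff]
    exact hk
  have h2 : ¬ p ∣ ((P.map (QuotientGroup.mk' U)).subgroupOf
      (K.map (QuotientGroup.mk' U))).index := by
    have h3 : ((P.map (QuotientGroup.mk' U)).subgroupOf (K.map (QuotientGroup.mk' U))).index =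
        (P ⊔ U).relIndex K := by
      change (P.map (QuotientGroup.mk' U)).relIndex (K.map (QuotientGroup.mk' U)) = _
      rw [Subgroup.relIndex_map_map, QuotientGroup.ker_mk']
      refine relIndex_eq_of_mul le_sup_left ?_
      intro b hb
      have hb' : b ∈ ((K ⊔ U : Subgroup G) : Set G) := hb
      rw [Subgroup.mul_normal] at hb'
      obtain ⟨l, hl, v, hv, rfl⟩ := hb'
      exact ⟨l, hl, v, Subgroup.mem_sup_right hv, rfl⟩
    rw [h3]
    exact hP.idx U hU
  exact ⟨h1.toSylow h2, rfl⟩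

theorem mem_map_iff {G : Type u} [Group G] (P U : Subgroup G) [U.Normal] (x : G) :
    (QuotientGroup.mk' U x) ∈ P.map (QuotientGroup.mk' U) ↔ x ∈ P ⊔ U := by
  have h := Subgroup.comap_map_eq (QuotientGroup.mk' U) P
  rw [QuotientGroup.ker_mk'] at h
  rw [← h]
  rfl

/-- conjugacy modulo an open normal subgroup -/
theorem conj_mod {G : Type u} [Group G] [TopologicalSpace G] [IsTopologicalGroup G]
    [CompactSpace G] {p : ℕ} (hp : p.Prime) {K P Q U : Subgroup G} (hP : Syl p K P)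
    (hQ : Syl p K Q) (hU : ON U) :
    ∃ k ∈ K, ∀ x, x ∈ Q ⊔ U ↔ k⁻¹ * x * k ∈ P ⊔ U := by
  haveI := hU.1
  haveI : Fact p.Prime := ⟨hp⟩
  haveI : Finite (G ⧸ U) := Subgroup.quotient_finite_of_isOpen U hU.2
  obtain ⟨S, hS⟩ := exists_sylow hp hP hU
  obtain ⟨R, hR⟩ := exists_sylow hp hQ hU
  obtain ⟨⟨kk, k0, hk0, rfl⟩, hk⟩ :=
    MulAction.exists_smul_eq (K.map (QuotientGroup.mk' U)) S R
  have key : ∀ y : K.map (QuotientGroup.mk' U), y.1 ∈ Q.map (QuotientGroup.mk' U) ↔
      (QuotientGroup.mk' U k0)⁻¹ * y.1 * QuotientGroup.mk' U k0 ∈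
        P.map (QuotientGroup.mk' U) := by
    intro y
    have h1 : y.1 ∈ Q.map (QuotientGroup.mk' U) ↔
        y ∈ (R : Subgroup (K.map (QuotientGroup.mk' U))) := by
      rw [hR, Subgroup.mem_subgroupOf]
    rw [h1, ← hk, Sylow.coe_subgroup_smul, Subgroup.mem_pointwise_smul_iff_inv_smul_mem, hS,
      Subgroup.mem_subgroupOf, MulAut.smul_def, MulAut.conj_inv_apply]
    rfl
  refine ⟨k0, hk0, fun x => ?_⟩
  rw [← mem_map_iff, ← mem_map_iff, map_mul, map_mul, map_inv]
  constructor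
  · intro hx
    exact (key ⟨_, Subgroup.map_mono hQ.le hx⟩).1 hx
  · intro hx
    have h2 : QuotientGroup.mk' U k0 ∈ K.map (QuotientGroup.mk' U) :=
      Subgroup.mem_map_of_mem _ hk0
    have h3 := Subgroup.map_mono (f := QuotientGroup.mk' U) hP.le hx
    have h4 : QuotientGroup.mk' U x ∈ K.map (QuotientGroup.mk' U) := by
      have := mul_mem (mul_mem h2 h3) (inv_mem h2)
      simpa [mul_assoc] using this
    exact (key ⟨_, h4⟩).2 hx

theorem t_CNJ : S_CNJ.{u} := by
  intro G _ _ _ _ _ p K P Q hp hK hP hQ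
  let T : {U : Subgroup G // ON U} → Set G := fun U =>
    {k | k ∈ K ∧ ∀ x, x ∈ Q ⊔ U.1 ↔ k⁻¹ * x * k ∈ P ⊔ U.1}
  haveI : Nonempty {U : Subgroup G // ON U} := ⟨⟨⊤, inferInstance, isOpen_univ⟩⟩
  have hclosed : ∀ U, IsClosed (T U) := by
    intro U
    have h1 : T U = (K : Set G) ∩ ⋂ x : G, {k | x ∈ Q ⊔ U.1 ↔ k⁻¹ * x * k ∈ P ⊔ U.1} := by
      ext k
      simp [T]
    rw [h1]
    refine hK.inter (isClosed_iInter fun x => ?_)
    have hopen : IsOpen ((P ⊔ U.1 : Subgroup G) : Set G) :=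
      Subgroup.isOpen_mono le_sup_right U.2.2
    have hcl : IsClosed ((P ⊔ U.1 : Subgroup G) : Set G) :=
      Subgroup.isClosed_of_isOpen _ hopen
    have hc : Continuous fun k : G => k⁻¹ * x * k := by fun_prop
    by_cases hx : x ∈ Q ⊔ U.1
    · have h2 : {k : G | x ∈ Q ⊔ U.1 ↔ k⁻¹ * x * k ∈ P ⊔ U.1} =
          (fun k : G => k⁻¹ * x * k) ⁻¹' ((P ⊔ U.1 : Subgroup G) : Set G) := by
        ext k
        simp [hx]
      rw [h2]
      exact hcl.preimage hc
    · have h2 : {k : G | x ∈ Q ⊔ U.1 ↔ k⁻¹ * x * k ∈ P ⊔ U.1} =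
          (fun k : G => k⁻¹ * x * k) ⁻¹' (((P ⊔ U.1 : Subgroup G) : Set G)ᶜ) := by
        ext k
        simp [hx]
      rw [h2]
      exact hopen.isClosed_compl.preimage hc
  have hne : ∀ U, (T U).Nonempty := by
    intro U
    obtain ⟨k, hk, h⟩ := conj_mod hp hP hQ U.2
    exact ⟨k, hk, h⟩
  have hmono : ∀ U V : {U : Subgroup G // ON U}, V.1 ≤ U.1 → T V ⊆ T U := by
    rintro U V hVU k ⟨hk, h⟩
    haveI := U.2.1
    refine ⟨hk, fun x => ?_⟩
    constructor
    · intro hx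
      obtain ⟨a, ha, b, hb, rfl⟩ := Subgroup.mem_sup_of_normal_right.1 hx
      have h1 := (h a).1 (Subgroup.mem_sup_left ha)
      have h2 : k⁻¹ * (a * b) * k = (k⁻¹ * a * k) * (k⁻¹ * b * k) := by group
      rw [h2]
      refine mul_mem (sup_le_sup_left hVU P h1) (Subgroup.mem_sup_right ?_)
      have := U.2.1.conj_mem b hb k⁻¹
      simpa using this
    · intro hx
      obtain ⟨a, ha, b, hb, hab⟩ := Subgroup.mem_sup_of_normal_right.1 hx
      have h1 : k * a * k⁻¹ ∈ Q ⊔ V.1 := by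
        refine (h _).2 ?_
        have : k⁻¹ * (k * a * k⁻¹) * k = a := by group
        rw [this]
        exact Subgroup.mem_sup_left ha
      have h2 : x = (k * a * k⁻¹) * (k * b * k⁻¹) := by
        have : x = k * (a * b) * k⁻¹ := by rw [hab]; group
        rw [this]; group
      rw [h2]
      exact mul_mem (sup_le_sup_left hVU Q h1) (Subgroup.mem_sup_right (U.2.1.conj_mem b hb k))
  have hdir : Directed (· ⊇ ·) T := by
    intro U V
    haveI := U.2.1
    haveI := V.2.1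
    refine ⟨⟨U.1 ⊓ V.1, inferInstance, U.2.2.inter V.2.2⟩, ?_, ?_⟩
    · exact hmono _ _ inf_le_left
    · exact hmono _ _ inf_le_right
  obtain ⟨k, hk⟩ := IsCompact.nonempty_iInter_of_directed_nonempty_isCompact_isClosed T hdir hne
    (fun U => (hclosed U).isCompact) hclosed
  rw [Set.mem_iInter] at hk
  refine ⟨k, (hk ⟨⊤, inferInstance, isOpen_univ⟩).1, fun x => ?_⟩
  constructor
  · intro hx
    exact mem_of_all hP.closed fun U hU => ((hk ⟨U, hU⟩).2 x).1 (Subgroup.mem_sup_left hx)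
  · intro hx
    exact mem_of_all hQ.closed fun U hU => ((hk ⟨U, hU⟩).2 x).2 (Subgroup.mem_sup_left hx)

end Pool.Agent.J4H62.MX
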